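import Pool.Agent.LPC.Stmts

/-!
# Squad LPC (MP_37fa12_co), row QUO
-/

set_option autoImplicit false

noncomputable section

namespace Pool.Agent.LPC.H80

open Pool.Agent.LPC

theorem disc {n : ℕ} {s : ℝ} {L : AddSubgroup (V n)} (hs : 0 < s) (hL : Mn s L) :
    DiscreteTopology (AddSubgroup.toIntSubmodule L) := by
  refine DiscreteTopology.of_forall_le_dist (r := Real.sqrt s) (Real.sqrt_pos.2 hs) ?_
  intro x y hxy
  have h1 : (x : V n) - y ∈ L := L.sub_mem x.2 y.2
  have h2 : (x : V n) - y ≠ 0 := by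
    intro h
    exact hxy (Subtype.ext (sub_eq_zero.1 h))
  have h3 := hL _ h1 h2
  rw [Subtype.dist_eq, dist_eq_norm]
  exact Real.sqrt_le_iff.2 ⟨norm_nonneg _, h3⟩

theorem rk_le {n : ℕ} {s : ℝ} {L : AddSubgroup (V n)} (hs : 0 < s) (hL : Mn s L) :
    Module.finrank ℤ (AddSubgroup.toIntSubmodule L) ≤ n := by
  haveI := disc hs hL
  have hd : DiscreteTopology (Submodule.span ℤ ((AddSubgroup.toIntSubmodule L : Submodule ℤ (V n)) :
      Set (V n))) := by
    rw [Submodule.span_eq]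
    exact disc hs hL
  have h1 := Real.finrank_eq_int_finrank_of_discrete hd
  unfold Set.finrank at h1
  rw [Submodule.span_eq] at h1
  rw [← h1]
  refine (Submodule.finrank_le _).trans ?_
  rw [finrank_euclideanSpace_fin]

theorem quo : QuoStmt := by
  intro n s L hs hL
  haveI := disc hs hL
  set M : Submodule ℤ (V n) := AddSubgroup.toIntSubmodule L with hM
  have hr : Module.finrank ℤ M ≤ n := rk_le hs hL
  let b := Module.finBasis ℤ M
  have hcard : Fintype.card (Fin (Module.finrank ℤ M) → ZMod 2) ≤ Fintype.card (Fin (2 ^ n)) := by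
    rw [Fintype.card_fun, ZMod.card, Fintype.card_fin, Fintype.card_fin]
    exact Nat.pow_le_pow_right (by norm_num) hr
  obtain ⟨e⟩ := Function.Embedding.nonempty_of_card_le hcard
  classical
  refine ⟨fun v => if h : v ∈ M then e (fun i => ((b.repr ⟨v, h⟩ i : ℤ) : ZMod 2)) else e 0, ?_⟩
  intro v hv w hw hc
  have hv' : v ∈ M := hv
  have hw' : w ∈ M := hw
  simp only [dif_pos hv', dif_pos hw'] at hc
  have h1 := e.injective hc
  have h2 : ∀ i, ∃ k : ℤ, b.repr ⟨v, hv'⟩ i - b.repr ⟨w, hw'⟩ i = 2 * k := by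
    intro i
    have h3 : ((b.repr ⟨w, hw'⟩ i : ℤ) : ZMod 2) = ((b.repr ⟨v, hv'⟩ i : ℤ) : ZMod 2) :=
      (congrFun h1 i).symm
    rw [ZMod.intCast_eq_intCast_iff_dvd_sub] at h3
    exact h3
  choose k hk using h2
  refine ⟨((∑ i, k i • b i : M) : V n), (∑ i, k i • b i : M).2, ?_⟩
  have h4 : (⟨v, hv'⟩ : M) - ⟨w, hw'⟩ = (2 : ℤ) • ∑ i, k i • b i := by
    apply b.ext_elem
    intro i
    rw [map_sub, map_smul, map_sum]
    simp only [map_smul, Module.Basis.repr_self, Finsupp.coe_sub, Pi.sub_apply, hk]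
    simp [Finsupp.single_apply]
  have h5 := congrArg (fun x : M => (x : V n)) h4
  simp only [Submodule.coe_sub, Submodule.coe_smul] at h5
  rw [h5, ← Int.cast_smul_eq_zsmul ℝ]
  norm_num

end Pool.Agent.LPC.H80
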